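import Pool.Agent.TotGap.BT

/-!
Upper bound of the right order for the number of prime triples `m, m+2, m+6` in an interval,
from the Brun-Hooley sieve.
-/

set_option autoImplicit false

namespace Pool.Agent.H7.GR

open Finset Classical Pool.Agent.H14Trans Pool.Agent.TotGap

/-- `m`, `m + 2`, `m + 6` are all prime -/
def Tri (m : ℕ) : Prop := m.Prime ∧ (m + 2).Prime ∧ (m + 6).Prime

lemma good_tri (x w : ℕ) : Good (bd 1 (x + 1) {0, 2, 6}) (fun _ => 3)
    ((Ioc 6 w).filter Nat.Prime) := by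
  refine ⟨?_, ?_, ?_, ?_⟩
  · intro b hb
    rw [mem_filter] at hb
    exact hb.2.pos
  · intro b _ s
    exact bd_periodic 1 (x + 1) {0, 2, 6} b s
  · intro b hb
    rw [mem_filter, mem_Ioc] at hb
    have := card_bd (b := b) (c := 1) (e := x + 1) (n := 6) (A := {0, 2, 6}) (by
      intro a ha
      simp only [mem_insert, mem_singleton] at ha
      omega) hb.1.1 (Nat.coprime_one_left b)
    rw [this]
    decide
  · intro b hb c hc hbc
    rw [mem_filter] at hb hc
    exact (Nat.coprime_primes hb.2 hc.2).mpr hbc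

lemma lay_mass_tri {y₀ i w : ℕ} (hy₀ : 2 ≤ y₀) :
    ∑ b ∈ lay y₀ ((Ioc 6 w).filter Nat.Prime) i, (1 : ℝ) / b ≤ 16 := by
  have h2 : 2 ≤ y₀ ^ (2 ^ i) := by
    calc 2 ≤ y₀ := hy₀
      _ ≤ y₀ ^ (2 ^ i) := Nat.le_self_pow (by positivity) _
  refine mass_le (y := y₀ ^ (2 ^ i)) ?_ ?_ h2 ?_ ?_
  · intro b hb
    simp only [lay, mem_filter] at hb
    exact hb.1.2.two_le
  · intro b hb c hc hbc
    simp only [lay, mem_filter] at hb hc
    exact (Nat.coprime_primes hb.1.2 hc.1.2).mpr hbc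
  · intro b hb
    simp only [lay, mem_filter] at hb
    exact hb.2.1
  · intro b hb
    simp only [lay, mem_filter] at hb
    have := hb.2.2
    rwa [pow_succ, pow_mul] at this

lemma prod_tri_le {w : ℕ} (hw : 6 ≤ w) :
    ∏ b ∈ (Ioc 6 w).filter Nat.Prime, (1 - (3 : ℝ) / b) ≤
      (2 * Real.exp 14 * (Real.log 6 / Real.log w)) ^ 3 := by
  have h1 := prime_prod_le (u := 6) (v := w) (by norm_num) hw
  have h2 : ∏ b ∈ (Ioc 6 w).filter Nat.Prime, (1 - (3 : ℝ) / b) ≤
      ∏ b ∈ (Ioc 6 w).filter Nat.Prime, (1 - (1 : ℝ) / b) ^ 3 := by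
    refine prod_le_prod (fun b hb => ?_) (fun b hb => ?_)
    · rw [mem_filter, mem_Ioc] at hb
      have : (7 : ℝ) ≤ b := by exact_mod_cast hb.1.1
      rw [sub_nonneg, div_le_one (by linarith)]
      linarith
    · rw [mem_filter, mem_Ioc] at hb
      have h7 : (7 : ℝ) ≤ b := by exact_mod_cast hb.1.1
      set t : ℝ := 1 / (b : ℝ) with ht
      have ht0 : 0 ≤ t := by positivity
      have ht1 : t ≤ 1 := by rw [ht, div_le_one (by linarith)]; linarith
      have e : (3 : ℝ) / b = 3 * t := by rw [ht]; ring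
      rw [e]
      nlinarith [mul_nonneg (mul_nonneg ht0 ht0) (sub_nonneg.mpr ht1), mul_nonneg ht0 ht0]
  refine h2.trans ?_
  rw [prod_pow]
  refine pow_le_pow_left₀ (prod_nonneg fun b hb => ?_) (by exact_mod_cast h1) 3
  rw [mem_filter, mem_Ioc] at hb
  have : (7 : ℝ) ≤ b := by exact_mod_cast hb.1.1
  rw [sub_nonneg, div_le_one (by linarith)]
  linarith

lemma log_cube_le {x : ℝ} (hx : 1 ≤ x) : Real.log x ^ 3 ≤ 6 * x := by
  have h0 : 0 ≤ Real.log x := Real.log_nonneg hx
  have h1 := Real.pow_div_factorial_le_exp (Real.log x) h0 3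
  rw [Real.exp_log (by linarith)] at h1
  norm_num [Nat.factorial] at h1
  linarith

/-- Prime triples in an interval. -/
theorem triples_le : ∃ C : ℝ, 0 < C ∧ ∃ y₁ : ℕ, 2 ≤ y₁ ∧ ∀ x y : ℕ, y₁ ≤ y →
    (#((Ioc x (x + y)).filter Tri) : ℝ) ≤ C * (y / Real.log y ^ 3) := by
  obtain ⟨s₁, hs₁, H⟩ := fundamental 3 16 (by norm_num)
  obtain ⟨J₀, HJ⟩ := H 8 (by norm_num)
  refine ⟨2 * (2 * Real.exp 14 * (Real.log 6 * (2 * s₁))) ^ 3 + 6 * (2 * s₁) ^ 3, ?_,
    (8 ^ (2 ^ J₀)) ^ s₁, ?_, ?_⟩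
  · have : 0 < Real.log 6 := Real.log_pos (by norm_num)
    have : (0 : ℝ) < s₁ := by exact_mod_cast (by omega : 0 < s₁)
    positivity
  · calc 2 ≤ 8 := by norm_num
      _ ≤ 8 ^ (2 ^ J₀) := Nat.le_self_pow (by positivity) _
      _ ≤ _ := Nat.le_self_pow (by omega) _
  intro x y hy
  obtain ⟨J, hJ, hwy, hyw⟩ := exists_scale (a := 8) (by norm_num) (by omega) hy
  set w := 8 ^ (2 ^ J) with hw
  have hw8 : 8 ≤ w := Nat.le_self_pow (by positivity) _
  have hwley : w ≤ y := (Nat.le_self_pow (by omega) w).trans hwy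
  set D := (Ioc 6 w).filter Nat.Prime with hD
  obtain ⟨_, hN⟩ := HJ J hJ (bd 1 (x + 1) {0, 2, 6}) (fun _ => 3) D
    (good_tri x w) (fun b hb => by
      rw [hD, mem_filter, mem_Ioc] at hb
      exact ⟨le_rfl, by omega⟩) (fun b hb => by
      rw [hD, mem_filter, mem_Ioc] at hb
      exact hb.1.2) (fun i _ => lay_mass_tri (by norm_num))
  have hub := (hN y hwy).2
  have hcard : #((Ioc x (x + y)).filter Tri) ≤
      #((range y).filter (Sift (bd 1 (x + 1) {0, 2, 6}) D)) + w := by
    have hsub : (Ioc x (x + y)).filter Tri ⊆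
        ((range y).filter (Sift (bd 1 (x + 1) {0, 2, 6}) D)).image (fun s => s + (x + 1)) ∪
          Ioc 0 w := by
      intro m hm
      rw [mem_filter, mem_Ioc] at hm
      rw [mem_union]
      by_cases hmw : m ≤ w
      · right
        rw [mem_Ioc]
        exact ⟨by have := hm.2.1.pos; omega, hmw⟩
      · left
        rw [mem_image]
        refine ⟨m - (x + 1), ?_, by omega⟩
        rw [mem_filter, mem_range]
        refine ⟨by omega, ?_⟩
        intro b hb hbad
        rw [hD, mem_filter, mem_Ioc] at hb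
        obtain ⟨a, ha, hdiv⟩ := hbad
        have e : 1 * (m - (x + 1)) + (x + 1 + a) = m + a := by omega
        rw [e] at hdiv
        have hp : (m + a).Prime := by
          simp only [mem_insert, mem_singleton] at ha
          rcases ha with rfl | rfl | rfl
          · exact hm.2.1
          · exact hm.2.2.1
          · exact hm.2.2.2
        have := (Nat.prime_dvd_prime_iff_eq hb.2 hp).mp hdiv
        omega
    refine (card_le_card hsub).trans ((card_union_le _ _).trans ?_)
    refine Nat.add_le_add card_image_le ?_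
    simp
  have hwR : (8 : ℝ) ≤ w := by exact_mod_cast hw8
  have hlogw : 0 < Real.log w := Real.log_pos (by linarith)
  have hy1 : (1 : ℝ) < y := by
    have : 1 < y := by omega
    exact_mod_cast this
  have hlogy : 0 < Real.log y := Real.log_pos hy1
  have hlog : Real.log y ≤ 2 * s₁ * Real.log w := by
    have h1 : (y : ℝ) ≤ (w : ℝ) ^ (2 * s₁) := by
      have : y ≤ w ^ (2 * s₁) := by
        refine hyw.le.trans ?_
        rw [pow_succ, pow_mul, ← hw, ← pow_mul]
      exact_mod_cast this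
    have h2 := Real.log_le_log (by linarith) h1
    rw [Real.log_pow] at h2
    push_cast at h2
    exact h2
  have hs0 : (0 : ℝ) < s₁ := by exact_mod_cast (by omega : 0 < s₁)
  have hprod := prod_tri_le (w := w) (by omega)
  have h3 : Real.log 6 / Real.log w ≤ Real.log 6 * (2 * s₁) / Real.log y := by
    rw [div_le_div_iff₀ hlogw hlogy]
    have h6 : 0 < Real.log 6 := Real.log_pos (by norm_num)
    nlinarith
  have h6 : 0 < Real.log 6 := Real.log_pos (by norm_num)
  have hwbd : (w : ℝ) ≤ 6 * (2 * (s₁ : ℝ)) ^ 3 * (y / Real.log y ^ 3) := by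
    rw [← mul_div_assoc, le_div_iff₀ (by positivity)]
    have h7 : Real.log y ^ 3 ≤ (2 * (s₁ : ℝ)) ^ 3 * (6 * w) := by
      calc Real.log y ^ 3 ≤ (2 * (s₁ : ℝ) * Real.log w) ^ 3 := by gcongr
        _ = (2 * (s₁ : ℝ)) ^ 3 * Real.log w ^ 3 := by ring
        _ ≤ (2 * (s₁ : ℝ)) ^ 3 * (6 * w) := by
            have := log_cube_le (x := (w : ℝ)) (by linarith)
            gcongr
    have h8 : (w : ℝ) * w ≤ y := by
      have : w * w ≤ y := by
        calc w * w = w ^ 2 := by ring
          _ ≤ w ^ s₁ := Nat.pow_le_pow_right (by omega) (by omega)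
          _ ≤ y := hwy
      exact_mod_cast this
    calc (w : ℝ) * Real.log y ^ 3 ≤ w * ((2 * (s₁ : ℝ)) ^ 3 * (6 * w)) := by gcongr
      _ = 6 * (2 * (s₁ : ℝ)) ^ 3 * (w * w) := by ring
      _ ≤ 6 * (2 * (s₁ : ℝ)) ^ 3 * y := by gcongr
  calc (#((Ioc x (x + y)).filter Tri) : ℝ)
      ≤ (#((range y).filter (Sift (bd 1 (x + 1) {0, 2, 6}) D)) : ℝ) + w := by
        exact_mod_cast hcard
    _ ≤ 2 * y * (2 * Real.exp 14 * (Real.log 6 * (2 * s₁) / Real.log y)) ^ 3 +
        6 * (2 * s₁) ^ 3 * (y / Real.log y ^ 3) := by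
        refine add_le_add ?_ hwbd
        refine hub.trans ?_
        push_cast
        refine mul_le_mul_of_nonneg_left (hprod.trans ?_) (by positivity)
        have : 0 ≤ Real.log 6 / Real.log w := by positivity
        gcongr
    _ = _ := by
        field_simp

end Pool.Agent.H7.GR
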