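import Pool.Agent.H7.GR.Potential

/-!
`N - f(N)` is rarely small: at most `C H Y / (log X)^3` of the `N` in `(X, X + H]` have
`N - f(N) ≤ Y`, if `H ≥ X ^ ε`.
-/

set_option autoImplicit false

namespace Pool.Agent.H7.GR

open Finset Pool.Agent.H5.GR

theorem f_add_five_le (N : ℕ) (hN : 6 ≤ N) : f N + 5 ≤ N := by
  have h1 := S_anti N hN 1 (f N) le_rfl (f_spec N hN).1 le_rfl
  have h2 := S_one N hN
  have h3 := S_f N hN
  omega

theorem tri_of_near (N Y : ℕ) (hN : 6 ≤ N) (h1 : N ≤ f N + Y) (h2 : 9 * Y < N) :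
    Tri (f N + 1) := by
  refine triple_or_small N hN ?_
  have h3 : 6 * Nat.sqrt (N + 2) ≤ N + 2 + 9 := by
    have h4 := Nat.sqrt_le (N + 2)
    set r := Nat.sqrt (N + 2)
    have h5 : 6 * r ≤ r * r + 9 := by
      zify
      nlinarith [sq_nonneg ((r : ℤ) - 3)]
    omega
  omega

theorem card_near_le (X H Y : ℕ) (h : 9 * Y < X) :
    #((Ioc X (X + H)).filter (fun N => 6 ≤ N ∧ N ≤ f N + Y)) ≤
      Y * #(@Finset.filter ℕ Tri (Classical.decPred _) (Ioc (X - Y) (X - Y + (H + Y)))) := by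
  classical
  set S := (Ioc X (X + H)).filter (fun N => 6 ≤ N ∧ N ≤ f N + Y) with hS
  have h1 : #S ≤ Y * #(S.image (fun N => f N + 1)) := by
    refine card_le_mul_card_image _ _ ?_
    intro m _
    have : S.filter (fun N => f N + 1 = m) ⊆ Ioc (m - 1) (m - 1 + Y) := by
      intro N hN
      rw [mem_filter, hS, mem_filter, mem_Ioc] at hN
      rw [mem_Ioc]
      have := f_add_five_le N hN.1.2.1
      omega
    simpa using card_le_card this
  refine h1.trans (Nat.mul_le_mul_left _ (card_le_card ?_))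
  intro m hm
  rw [mem_image] at hm
  obtain ⟨N, hN, rfl⟩ := hm
  rw [hS, mem_filter, mem_Ioc] at hN
  have h5 := f_add_five_le N hN.2.1
  rw [mem_filter, mem_Ioc]
  refine ⟨by omega, ?_⟩
  exact tri_of_near N Y hN.2.1 hN.2.2 (by omega)

theorem deficit (ε : ℝ) (hε : 0 < ε) : ∃ C : ℝ, ∀ X H Y : ℕ, 2 ≤ X → (X : ℝ) ^ ε ≤ H → 1 ≤ Y →
    (#((Ioc X (X + H)).filter (fun N => 6 ≤ N ∧ N ≤ f N + Y)) : ℝ) ≤
      C * H * Y / Real.log X ^ 3 := by
  obtain ⟨C₁, hC₁, y₁, hy₁, htr⟩ := triples_le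
  refine ⟨54 + 6 / ε ^ 3 + 6 * y₁ / ε ^ 3 + 2 * C₁ / ε ^ 3, ?_⟩
  intro X H Y hX hH hY
  have hXR : (2 : ℝ) ≤ X := by exact_mod_cast hX
  have hYR : (1 : ℝ) ≤ Y := by exact_mod_cast hY
  have hX0 : (0 : ℝ) < X := by linarith
  have hL : 0 < Real.log X := Real.log_pos (by linarith)
  have hH0 : (0 : ℝ) < H := lt_of_lt_of_le (Real.rpow_pos_of_pos hX0 _) hH
  have hH1 : (1 : ℝ) ≤ H := by
    have : 0 < H := by exact_mod_cast hH0
    exact_mod_cast this
  have hHY : (0 : ℝ) ≤ H * Y := by positivity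
  set K := #((Ioc X (X + H)).filter (fun N => 6 ≤ N ∧ N ≤ f N + Y)) with hK
  have hKH : (K : ℝ) ≤ H := by
    have : K ≤ H := by
      have := card_filter_le (Ioc X (X + H)) (fun N => 6 ≤ N ∧ N ≤ f N + Y)
      simpa using this
    exact_mod_cast this
  have hK0 : (0 : ℝ) ≤ K := Nat.cast_nonneg _
  have hLH : Real.log X ^ 3 ≤ 6 / ε ^ 3 * H := by
    have h1 := log_cube_le (x := (X : ℝ) ^ ε) (Real.one_le_rpow (by linarith) hε.le)
    rw [Real.log_rpow hX0] at h1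
    rw [div_mul_eq_mul_div, le_div_iff₀ (by positivity)]
    calc Real.log X ^ 3 * ε ^ 3 = (ε * Real.log X) ^ 3 := by ring
      _ ≤ 6 * (X : ℝ) ^ ε := h1
      _ ≤ 6 * H := by gcongr
  rw [le_div_iff₀ (by positivity)]
  have p1 : 0 ≤ 6 / ε ^ 3 := by positivity
  have p2 : 0 ≤ 6 * (y₁ : ℝ) / ε ^ 3 := by positivity
  have p3 : 0 ≤ 2 * C₁ / ε ^ 3 := by positivity
  have fin : ∀ c : ℝ, c ≤ 54 + 6 / ε ^ 3 + 6 * y₁ / ε ^ 3 + 2 * C₁ / ε ^ 3 →
      (K : ℝ) * Real.log X ^ 3 ≤ c * (H * Y) →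
      (K : ℝ) * Real.log X ^ 3 ≤ (54 + 6 / ε ^ 3 + 6 * y₁ / ε ^ 3 + 2 * C₁ / ε ^ 3) * H * Y := by
    intro c hc h
    rw [mul_assoc]
    exact h.trans (mul_le_mul_of_nonneg_right hc hHY)
  rcases Nat.lt_or_ge (9 * Y) X with h9 | h9
  swap
  · -- `X ≤ 9 Y`
    refine fin 54 (by linarith) ?_
    have h1 := log_cube_le (x := (X : ℝ)) (by linarith)
    have h2 : (X : ℝ) ≤ 9 * Y := by exact_mod_cast h9
    calc (K : ℝ) * Real.log X ^ 3 ≤ H * (54 * Y) := by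
          refine mul_le_mul hKH (by linarith) (by positivity) hH0.le
      _ = 54 * (H * Y) := by ring
  rcases Nat.le_total H Y with hle | hle
  · refine fin (6 / ε ^ 3) (by linarith) ?_
    have h2 : (H : ℝ) ≤ Y := by exact_mod_cast hle
    calc (K : ℝ) * Real.log X ^ 3 ≤ H * (6 / ε ^ 3 * H) :=
          mul_le_mul hKH hLH (by positivity) hH0.le
      _ ≤ H * (6 / ε ^ 3 * Y) := by gcongr
      _ = 6 / ε ^ 3 * (H * Y) := by ring
  rcases Nat.lt_or_ge (H + Y) y₁ with hy | hy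
  · refine fin (6 * y₁ / ε ^ 3) (by linarith) ?_
    have h2 : (H : ℝ) ≤ y₁ := by exact_mod_cast (by omega : H ≤ y₁)
    calc (K : ℝ) * Real.log X ^ 3 ≤ H * (6 / ε ^ 3 * H) :=
          mul_le_mul hKH hLH (by positivity) hH0.le
      _ ≤ H * (6 / ε ^ 3 * y₁ * Y) := by
          refine mul_le_mul_of_nonneg_left ?_ hH0.le
          calc 6 / ε ^ 3 * (H : ℝ) ≤ 6 / ε ^ 3 * y₁ := by gcongr
            _ = 6 / ε ^ 3 * y₁ * 1 := by ring
            _ ≤ 6 / ε ^ 3 * y₁ * Y := by gcongr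
      _ = 6 * y₁ / ε ^ 3 * (H * Y) := by ring
  · refine fin (2 * C₁ / ε ^ 3) (by linarith) ?_
    have h1 := card_near_le X H Y h9
    have h2 := htr (X - Y) (H + Y) hy
    have h3 : (K : ℝ) ≤ Y * (C₁ * (((H + Y : ℕ) : ℝ) / Real.log ((H + Y : ℕ) : ℝ) ^ 3)) := by
      have h1' : (K : ℝ) ≤ Y * (#(@Finset.filter ℕ Tri (Classical.decPred _)
          (Ioc (X - Y) (X - Y + (H + Y)))) : ℝ) := by exact_mod_cast h1
      refine h1'.trans (mul_le_mul_of_nonneg_left ?_ (by linarith))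
      convert h2 using 4
    have h4 : ε * Real.log X ≤ Real.log ((H + Y : ℕ) : ℝ) := by
      rw [← Real.log_rpow hX0]
      refine Real.log_le_log (Real.rpow_pos_of_pos hX0 _) (hH.trans ?_)
      push_cast
      linarith
    have h5 : ((H + Y : ℕ) : ℝ) ≤ 2 * H := by
      have : H + Y ≤ 2 * H := by omega
      exact_mod_cast this
    have h6 : 0 < ε * Real.log X := by positivity
    have h7 : ((H + Y : ℕ) : ℝ) / Real.log ((H + Y : ℕ) : ℝ) ^ 3 ≤ 2 * H / (ε * Real.log X) ^ 3 := by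
      gcongr
    calc (K : ℝ) * Real.log X ^ 3
        ≤ Y * (C₁ * (2 * H / (ε * Real.log X) ^ 3)) * Real.log X ^ 3 := by
          refine mul_le_mul_of_nonneg_right (h3.trans ?_) (by positivity)
          gcongr
      _ = 2 * C₁ / ε ^ 3 * (H * Y) := by
          field_simp

end Pool.Agent.H7.GR
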